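import Pool.Agent.Helper26.AF.Goals2

/-!
# Project AF, packet FOR: Cayley's formula for rooted forests

Proof by one more root: `a(S) = ∑_(g in A(S + v)) (k - #T_v(g))` (`T_v(g)` the tree of `v`) and the
symmetry between the roots.
-/

set_option autoImplicit false

namespace Pool.Agent.Helper77.AF

open Finset Function
open Pool.Agent.Helper26.AF

section iter

variable {α : Type} [DecidableEq α]

lemma iter_update (f : α → α) (v w x : α) (n : ℕ) (h : ∀ i < n, f^[i] x ≠ v) :
    (update f v w)^[n] x = f^[n] x := by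
  induction n with
  | zero => rfl
  | succ n ih =>
    rw [iterate_succ_apply', iterate_succ_apply', ih fun i hi => h i (by omega),
      update_of_ne (h n (by omega))]

omit [DecidableEq α] in
lemma fixed_iter (f : α → α) (x r : α) (i j : ℕ) (hi : f^[i] x = r) (hr : f r = r)
    (hij : i ≤ j) : f^[j] x = r := by
  obtain ⟨d, rfl⟩ := Nat.exists_eq_add_of_le' hij
  rw [iterate_add_apply, hi]
  exact iterate_fixed hr d

omit [DecidableEq α] in
lemma first (f : α → α) (x v : α) (h : ∃ i, f^[i] x = v) :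
    ∃ n, f^[n] x = v ∧ ∀ i < n, f^[i] x ≠ v := by
  classical
  exact ⟨Nat.find h, Nat.find_spec h, fun i hi => Nat.find_min h hi⟩

end iter

variable {k : ℕ}

/-- `x` is in the tree of `v` -/
def Tr (g : Fin k → Fin k) (v x : Fin k) : Prop := ∃ i, g^[i] x = v

lemma for_up (S : Finset (Fin k)) (v : Fin k) (hv : v ∉ S) (f : Fin k → Fin k) (hf : IsFor S f) :
    IsFor (insert v S) (update f v v) ∧ ¬ Tr (update f v v) v (f v) := by
  refine ⟨⟨fun x hx => ?_, fun x => ?_⟩, ?_⟩
  · by_cases hxv : x = v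
    · rw [hxv, update_self]
    · rw [update_of_ne hxv]
      exact hf.1 x ((mem_insert.mp hx).resolve_left hxv)
  · by_cases h : ∃ i, f^[i] x = v
    · obtain ⟨n, hn, hn'⟩ := first f x v h
      refine ⟨n, ?_⟩
      rw [iter_update f v v x n hn', hn]
      exact mem_insert_self _ _
    · push Not at h
      obtain ⟨i, hi⟩ := hf.2 x
      refine ⟨i, ?_⟩
      rw [iter_update f v v x i fun j _ => h j]
      exact mem_insert_of_mem hi
  · intro h
    obtain ⟨n, hn, hn'⟩ := first _ _ _ h
    have h1 := iter_update (update f v v) v (f v) (f v) n hn'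
    rw [update_idem, update_eq_self, hn] at h1
    obtain ⟨m, hm⟩ := hf.2 v
    have h2 : f^[n + 1] v = v := by
      rw [iterate_succ_apply]
      exact h1
    have h3 : f^[(n + 1) * m] v = v := by
      rw [iterate_mul]
      exact iterate_fixed h2 m
    have h4 := fixed_iter f v _ m ((n + 1) * m) rfl (hf.1 _ hm) (by nlinarith)
    rw [h3] at h4
    rw [← h4] at hm
    exact hv hm

lemma for_down (S : Finset (Fin k)) (v w : Fin k) (hv : v ∉ S) (g : Fin k → Fin k)
    (hg : IsFor (insert v S) g) (hw : ¬ Tr g v w) : IsFor S (update g v w) := by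
  have hmiss : ∀ y, ¬ Tr g v y → ∃ i, (update g v w)^[i] y ∈ S := by
    intro y hy
    have hy' : ∀ i, g^[i] y ≠ v := fun i hi => hy ⟨i, hi⟩
    obtain ⟨i, hi⟩ := hg.2 y
    refine ⟨i, ?_⟩
    rw [iter_update g v w y i fun j _ => hy' j]
    exact (mem_insert.mp hi).resolve_left (hy' i)
  refine ⟨fun x hx => ?_, fun x => ?_⟩
  · have hxv : x ≠ v := fun h => hv (h ▸ hx)
    rw [update_of_ne hxv]
    exact hg.1 x (mem_insert_of_mem hx)
  · by_cases h : Tr g v x
    · obtain ⟨n, hn, hn'⟩ := first g x v h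
      obtain ⟨i, hi⟩ := hmiss w hw
      refine ⟨i + (n + 1), ?_⟩
      rw [iterate_add_apply, iterate_succ_apply', iter_update g v w x n hn', hn, update_self]
      exact hi
    · exact hmiss x h

open Classical in
/-- the set of forests -/
noncomputable def Fo (S : Finset (Fin k)) : Finset (Fin k → Fin k) :=
  univ.filter (fun f => IsFor S f)

open Classical in
/-- the tree of `v` -/
noncomputable def TT (g : Fin k → Fin k) (v : Fin k) : Finset (Fin k) :=
  univ.filter (fun x => Tr g v x)

lemma mem_Fo (S : Finset (Fin k)) (f : Fin k → Fin k) : f ∈ Fo S ↔ IsFor S f := by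
  simp [Fo]

lemma mem_TT (g : Fin k → Fin k) (v x : Fin k) : x ∈ TT g v ↔ Tr g v x := by
  simp [TT]

lemma count_up (S : Finset (Fin k)) (v : Fin k) (hv : v ∉ S) :
    #(Fo S) + ∑ g ∈ Fo (insert v S), #(TT g v) = #(Fo (insert v S)) * k := by
  have h1 : #(Fo S) = #((Fo (insert v S)).sigma (fun g => (TT g v)ᶜ)) := by
    refine Finset.card_bij' (fun f _ => ⟨update f v v, f v⟩) (fun p _ => update p.1 v p.2)
      ?_ ?_ ?_ ?_
    · intro f hf
      obtain ⟨h1, h2⟩ := for_up S v hv f ((mem_Fo S f).mp hf)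
      rw [mem_sigma, mem_compl, mem_TT]
      exact ⟨(mem_Fo _ _).mpr h1, h2⟩
    · rintro ⟨g, w⟩ hp
      rw [mem_sigma, mem_compl, mem_TT, mem_Fo] at hp
      exact (mem_Fo _ _).mpr (for_down S v w hv g hp.1 hp.2)
    · intro f hf
      change update (update f v v) v (f v) = f
      rw [update_idem, update_eq_self]
    · rintro ⟨g, w⟩ hp
      rw [mem_sigma, mem_compl, mem_TT, mem_Fo] at hp
      have hgv : g v = v := hp.1.1 v (mem_insert_self _ _)
      have h1 : update (update g v w) v v = g := by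
        rw [update_idem]
        conv_lhs => rw [← hgv]
        rw [hgv]
        nth_rewrite 2 [← hgv]
        exact update_eq_self v g
      have h2 : update g v w v = w := update_self _ _ _
      change (⟨update (update g v w) v v, update g v w v⟩ : Σ _ : Fin k → Fin k, Fin k) = ⟨g, w⟩
      rw [h1, h2]
  rw [h1, card_sigma, ← sum_add_distrib, sum_congr rfl (g := fun _ => k), sum_const, smul_eq_mul]
  intro g _
  rw [add_comm, card_add_card_compl, Fintype.card_fin]

lemma sum_trees (R : Finset (Fin k)) (g : Fin k → Fin k) (hg : IsFor R g) :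
    ∑ r ∈ R, #(TT g r) = k := by
  rw [← card_biUnion]
  · have : R.biUnion (TT g) = univ := by
      ext x
      simp only [mem_biUnion, mem_univ, iff_true]
      obtain ⟨i, hi⟩ := hg.2 x
      exact ⟨_, hi, (mem_TT _ _ _).mpr ⟨i, rfl⟩⟩
    rw [this, card_univ, Fintype.card_fin]
  · intro r hr r' hr' hne
    change Disjoint (TT g r) (TT g r')
    rw [disjoint_left]
    intro x hx hx'
    obtain ⟨i, hi⟩ := (mem_TT _ _ _).mp hx
    obtain ⟨j, hj⟩ := (mem_TT _ _ _).mp hx'
    apply hne
    rw [← fixed_iter g x r i (max i j) hi (hg.1 r hr) (le_max_left _ _),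
      ← fixed_iter g x r' j (max i j) hj (hg.1 r' hr') (le_max_right _ _)]

/-- conjugation by a transposition -/
def cj (r r' : Fin k) (g : Fin k → Fin k) : Fin k → Fin k :=
  fun x => Equiv.swap r r' (g (Equiv.swap r r' x))

lemma cj_cj (r r' : Fin k) (g : Fin k → Fin k) : cj r r' (cj r r' g) = g := by
  funext x
  simp [cj]

lemma cj_iter (r r' : Fin k) (g : Fin k → Fin k) (n : ℕ) (x : Fin k) :
    (cj r r' g)^[n] x = Equiv.swap r r' (g^[n] (Equiv.swap r r' x)) := by
  induction n with
  | zero => simp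
  | succ n ih =>
    rw [iterate_succ_apply', ih, iterate_succ_apply']
    simp [cj]

lemma swap_mem (R : Finset (Fin k)) (r r' x : Fin k) (hr : r ∈ R) (hr' : r' ∈ R) (hx : x ∈ R) :
    Equiv.swap r r' x ∈ R := by
  rw [Equiv.swap_apply_def]
  split_ifs <;> assumption

lemma cj_for (R : Finset (Fin k)) (r r' : Fin k) (hr : r ∈ R) (hr' : r' ∈ R) (g : Fin k → Fin k)
    (hg : IsFor R g) : IsFor R (cj r r' g) := by
  refine ⟨fun x hx => ?_, fun x => ?_⟩
  · unfold cj
    rw [hg.1 _ (swap_mem R r r' x hr hr' hx), Equiv.swap_apply_self]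
  · obtain ⟨i, hi⟩ := hg.2 (Equiv.swap r r' x)
    refine ⟨i, ?_⟩
    rw [cj_iter]
    exact swap_mem R r r' _ hr hr' hi

lemma cj_TT (r r' : Fin k) (g : Fin k → Fin k) : #(TT (cj r r' g) r') = #(TT g r) := by
  refine Finset.card_bij' (fun x _ => Equiv.swap r r' x) (fun x _ => Equiv.swap r r' x)
      ?_ ?_ ?_ ?_
  · intro x hx
    obtain ⟨i, hi⟩ := (mem_TT _ _ _).mp hx
    refine (mem_TT _ _ _).mpr ⟨i, ?_⟩
    rw [cj_iter] at hi
    have := congrArg (Equiv.swap r r') hi
    rwa [Equiv.swap_apply_self, Equiv.swap_apply_right] at this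
  · intro x hx
    obtain ⟨i, hi⟩ := (mem_TT _ _ _).mp hx
    refine (mem_TT _ _ _).mpr ⟨i, ?_⟩
    rw [cj_iter, Equiv.swap_apply_self, hi, Equiv.swap_apply_left]
  · intro x _
    simp
  · intro x _
    simp

lemma symm_trees (R : Finset (Fin k)) (r r' : Fin k) (hr : r ∈ R) (hr' : r' ∈ R) :
    ∑ g ∈ Fo R, #(TT g r) = ∑ g ∈ Fo R, #(TT g r') := by
  refine Finset.sum_bij' (fun g _ => cj r r' g) (fun g _ => cj r r' g) ?_ ?_ ?_ ?_ ?_
  · intro g hg
    exact (mem_Fo _ _).mpr (cj_for R r r' hr hr' g ((mem_Fo _ _).mp hg))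
  · intro g hg
    exact (mem_Fo _ _).mpr (cj_for R r r' hr hr' g ((mem_Fo _ _).mp hg))
  · intro g _
    exact cj_cj r r' g
  · intro g _
    exact cj_cj r r' g
  · intro g _
    exact (cj_TT r r' g).symm

lemma count_trees (R : Finset (Fin k)) (v : Fin k) (hv : v ∈ R) :
    #R * ∑ g ∈ Fo R, #(TT g v) = #(Fo R) * k := by
  have h1 : ∑ r ∈ R, ∑ g ∈ Fo R, #(TT g r) = #R * ∑ g ∈ Fo R, #(TT g v) := by
    rw [sum_congr rfl fun r hr => symm_trees R r v hr hv, sum_const, smul_eq_mul]
  rw [← h1, sum_comm, sum_congr rfl fun g hg => sum_trees R g ((mem_Fo _ _).mp hg), sum_const,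
    smul_eq_mul]

lemma main_count (m : ℕ) : ∀ S : Finset (Fin k), S.Nonempty → k = #S + m →
    #(Fo S) * k = #S * k ^ m := by
  induction m with
  | zero =>
    intro S _ hk
    have hS : S = univ := by
      rw [← card_eq_iff_eq_univ, Fintype.card_fin]
      omega
    have h1 : Fo S = {id} := by
      ext f
      rw [mem_Fo, mem_singleton]
      constructor
      · intro h
        funext x
        exact h.1 x (by rw [hS]; exact mem_univ x)
      · rintro rfl
        exact ⟨fun x _ => rfl, fun x => ⟨0, by rw [hS]; exact mem_univ _⟩⟩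
    rw [h1, card_singleton, one_mul, pow_zero, mul_one]
    omega
  | succ m ih =>
    intro S hS hk
    have hex : ∃ v, v ∉ S := by
      by_contra hcon
      push Not at hcon
      have : #S = k := by
        rw [eq_univ_of_forall hcon, card_univ, Fintype.card_fin]
      omega
    obtain ⟨v, hv⟩ := hex
    have h1 := count_up S v hv
    have h2 := count_trees (insert v S) v (mem_insert_self _ _)
    have h3 : #(insert v S) = #S + 1 := card_insert_of_notMem hv
    have h4 := ih (insert v S) (insert_nonempty _ _) (by rw [h3]; omega)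
    rw [h3] at h2 h4
    have h5 : (#S + 1) * (#(Fo S) * k) = (#S + 1) * (#S * k ^ (m + 1)) := by
      zify at h1 h2 h4 ⊢
      have h6 : (((#S : ℕ) : ℤ) + 1) * #(Fo S) = #S * (#(Fo (insert v S)) * k) := by
        linear_combination (((#S : ℕ) : ℤ) + 1) * h1 - h2
      have h7 : (((#S : ℕ) : ℤ) + 1) * (#(Fo S) * k) = #S * (#(Fo (insert v S)) * k) * k := by
        rw [← h6]
        ring
      rw [h7, h4]
      ring
    exact Nat.eq_of_mul_eq_mul_left (Nat.succ_pos _) h5

/-- Cayley's formula for rooted forests -/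
theorem goalFOR : StmtFOR := by
  intro k S hS
  have h1 : Nat.card {f : Fin k → Fin k // IsFor S f} = #(Fo S) := by
    classical
    rw [Nat.card_eq_fintype_card, Fintype.card_subtype]
    unfold Fo
    congr
  have h2 : #S ≤ k := by
    have := card_le_univ S
    rwa [Fintype.card_fin] at this
  rw [h1]
  exact main_count (k - #S) S hS (by omega)

end Pool.Agent.Helper77.AF
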