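import Pool.Agent.Helper15.AF.Goals1

/-!
# Packet AF-HNK (MP_34c247_lc): the Hankel matrix of a small-bias string
-/

set_option autoImplicit false

namespace Pool.Agent.Helper77.AF

open Pool.Agent.Helper15.AF Pool.Agent.Helper51.ZP Pool.Agent.Helper78.DT
open scoped Classical

/-- coefficients of the product -/
noncomputable def cf {n m : ℕ} (d : Fin m → ZMod 2) (c : Fin n → ZMod 2) (l : ℕ) : ZMod 2 :=
  ∑ i : Fin m, ∑ j : Fin n, if ((j : ℕ) + (i : ℕ)) = l then d i * c j else 0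

/-- the polynomial of a vector -/
noncomputable def vp {n : ℕ} (c : Fin n → ZMod 2) : Polynomial (ZMod 2) :=
  ∑ j : Fin n, Polynomial.monomial (j : ℕ) (c j)

theorem vp_ne {n : ℕ} {c : Fin n → ZMod 2} (hc : c ≠ 0) : vp c ≠ 0 := by
  intro h
  refine hc (funext fun j => ?_)
  have h1 : (vp c).coeff (j : ℕ) = 0 := by rw [h, Polynomial.coeff_zero]
  rw [vp, Polynomial.finsetSum_coeff, Finset.sum_eq_single j] at h1
  · rwa [Polynomial.coeff_monomial, if_pos rfl] at h1
  · intro b _ hb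
    rw [Polynomial.coeff_monomial, if_neg fun h2 => hb (Fin.ext h2)]
  · intro h2
    exact absurd (Finset.mem_univ j) h2

theorem vp_mul {n m : ℕ} (d : Fin m → ZMod 2) (c : Fin n → ZMod 2) (l : ℕ) :
    (vp d * vp c).coeff l = cf d c l := by
  rw [vp, vp, Finset.sum_mul_sum, Polynomial.finsetSum_coeff, cf]
  refine Finset.sum_congr rfl fun i _ => ?_
  rw [Polynomial.finsetSum_coeff]
  refine Finset.sum_congr rfl fun j _ => ?_
  rw [Polynomial.monomial_mul_monomial, Polynomial.coeff_monomial, add_comm (i : ℕ)]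

theorem cf_ne {n m : ℕ} {d : Fin m → ZMod 2} {c : Fin n → ZMod 2} (hd : d ≠ 0) (hc : c ≠ 0) :
    (fun l : Fin (n + m) => cf d c l) ≠ 0 := by
  intro h
  have h1 : vp d * vp c = 0 := by
    ext l
    rw [vp_mul, Polynomial.coeff_zero]
    by_cases hl : l < n + m
    · exact congrFun h ⟨l, hl⟩
    · refine Finset.sum_eq_zero fun i _ => Finset.sum_eq_zero fun j _ => ?_
      have h2 := i.isLt
      have h3 := j.isLt
      rw [if_neg (by omega)]
  rcases mul_eq_zero.1 h1 with h2 | h2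
  · exact vp_ne hd h2
  · exact vp_ne hc h2

theorem dot_tm {n m : ℕ} (Y : ℕ → Bool) (d : Fin m → ZMod 2) (c : Fin n → ZMod 2) :
    d ⬝ᵥ tm Y m c = ∑ l : Fin (n + m), cf d c l * b2z (Y l) := by
  have h1 : ∀ l : Fin (n + m), cf d c l * b2z (Y l) =
      ∑ i : Fin m, ∑ j : Fin n, if ((j : ℕ) + (i : ℕ)) = l then d i * c j * b2z (Y l) else 0 := by
    intro l
    rw [cf, Finset.sum_mul]
    refine Finset.sum_congr rfl fun i _ => ?_
    rw [Finset.sum_mul]
    refine Finset.sum_congr rfl fun j _ => ?_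
    rw [ite_mul, zero_mul]
  rw [Finset.sum_congr rfl fun l _ => h1 l, Finset.sum_comm]
  rw [dotProduct]
  refine Finset.sum_congr rfl fun i _ => ?_
  rw [Finset.sum_comm, tm, Finset.mul_sum]
  refine Finset.sum_congr rfl fun j _ => ?_
  have hl : (j : ℕ) + (i : ℕ) < n + m := by
    have h2 := i.isLt
    have h3 := j.isLt
    omega
  rw [Finset.sum_eq_single (⟨(j : ℕ) + (i : ℕ), hl⟩ : Fin (n + m))]
  · rw [if_pos rfl]
    ring
  · intro b _ hb
    rw [if_neg fun h2 => hb (Fin.ext h2.symm)]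
  · intro h2
    exact absurd (Finset.mem_univ _) h2

/-- HNK -/
theorem hnk (hPrm : PrmStmt) (hSbb : SbbStmt) : HnkStmt := by
  intro k n m T hk hT c hc
  obtain ⟨hl, hf⟩ := hPrm k hk
  have hQ : (0 : ℝ) ≤ ((T : ℝ) + 1) / Qk k := by positivity
  have key : ∀ d : Fin m → ZMod 2,
      av (fun p : Fin (Qk k) × Fin (Qk k) => sg (d ⬝ᵥ tm (Yf k p.1 p.2) m c)) ≤
        (if d = 0 then 1 else 0) + ((T : ℝ) + 1) / Qk k := by
    intro d
    by_cases hd : d = 0
    · rw [if_pos hd]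
      refine (av_le_of_le zero_le_one fun p => ?_).trans (le_add_of_nonneg_right hQ)
      rw [hd, zero_dotProduct, sg_zero]
    · rw [if_neg hd, zero_add]
      have h1 := hSbb k (findc k) hk hl hf (n + m) (fun l => cf d c l) (cf_ne hd hc)
      have h2 : (fun p : Fin (Qk k) × Fin (Qk k) => sg (d ⬝ᵥ tm (Yf k p.1 p.2) m c)) =
          fun p : Fin (Qk k) × Fin (Qk k) =>
            sg (∑ j : Fin (n + m), cf d c j * b2z (yc k (findc k) p.1 p.2 j)) := by
        funext p
        rw [dot_tm]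
        rfl
      rw [h2]
      refine (le_abs_self _).trans (h1.trans ?_)
      have h3 : ((n + m : ℕ) : ℝ) ≤ T := by exact_mod_cast hT
      gcongr
  have h1 : pr (fun p : Fin (Qk k) × Fin (Qk k) => tm (Yf k p.1 p.2) m c = 0) =
      av fun p : Fin (Qk k) × Fin (Qk k) =>
        av fun d : Fin m → ZMod 2 => sg (d ⬝ᵥ tm (Yf k p.1 p.2) m c) := by
    rw [pr_eq_av]
    refine av_congr fun p => ?_
    have h2 := Ex_sg_dot (tm (Yf k p.1 p.2) m c)
    rw [show (av fun d : Fin m → ZMod 2 => sg (d ⬝ᵥ tm (Yf k p.1 p.2) m c)) =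
      Ex fun d : Fin m → ZMod 2 => sg (d ⬝ᵥ tm (Yf k p.1 p.2) m c) from rfl, h2]
    split_ifs <;> rfl
  rw [h1, av_comm]
  refine (av_mono key).trans (le_of_eq ?_)
  rw [av_add, av_const]
  congr 1
  rw [av, Finset.sum_ite_eq' Finset.univ (0 : Fin m → ZMod 2)]
  simp [ZMod.card]

end Pool.Agent.Helper77.AF
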